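import Pool.Agent.H570R2.Modp.Stubs
import Pool.Agent.H570R2.Mono.Alg1

/-!
# Transfer of the value modulo a prime (`StubTransfer`)
-/

set_option autoImplicit false

namespace Pool.Agent.H573R2.Modp

open Pool.Agent.NPC.Cnt Pool.Agent.H549R2.PM Pool.Agent.H549R2.Convex Pool.Agent.H570R2.Mono

theorem tr_choose {p : ℕ} [Fact p.Prime] {M N : ℤ} (h : (p : ℤ) ∣ M - N) {k : ℕ} (hk : k < p) :
    (p : ℤ) ∣ Ring.choose M k - Ring.choose N k := by
  have hp : p.Prime := Fact.out
  have e : ∀ x : ℤ, (k.factorial : ℤ) * Ring.choose x k = (descPochhammer ℤ k).eval x := by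
    intro x
    rw [Polynomial.eval_eq_smeval, Ring.descPochhammer_eq_factorial_smul_choose, nsmul_eq_mul]
  have h1 : (p : ℤ) ∣ (k.factorial : ℤ) * (Ring.choose M k - Ring.choose N k) := by
    rw [mul_sub, e, e]
    exact h.trans (Polynomial.sub_dvd_eval_sub M N _)
  have h2 : Prime (p : ℤ) := Nat.prime_iff_prime_int.1 hp
  rcases h2.dvd_or_dvd h1 with h3 | h3
  · have : p ∣ k.factorial := by exact_mod_cast h3
    have := (hp.dvd_factorial).1 this
    omega
  · exact h3

theorem tr_choose_cast {p : ℕ} [Fact p.Prime] {A : Type} [CommRing A] [CharP A p] {M N : ℤ}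
    (h : (p : ℤ) ∣ M - N) {k : ℕ} (hk : k < p) :
    ((Ring.choose M k : ℤ) : A) = ((Ring.choose N k : ℤ) : A) := by
  have h1 := tr_choose h hk
  have h2 := (CharP.intCast_eq_zero_iff A p _).2 h1
  rw [Int.cast_sub, sub_eq_zero] at h2
  exact h2

theorem tr_pf {p : ℕ} [Fact p.Prime] {A : Type} [CommRing A] [CharP A p] {M N : ℤ}
    (h : (p : ℤ) ∣ M - N) (D : A) (hD : D ^ p = 0) (G H : Polynomial A)
    (hGH : ∀ k < p, G.coeff k = H.coeff k) : pf M D G = pf N D H := by
  unfold pf
  have hlt1 : G.natDegree < max G.natDegree H.natDegree + 1 := by omega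
  have hlt2 : H.natDegree < max G.natDegree H.natDegree + 1 := by omega
  rw [Polynomial.sum_over_range' G (f := fun k c => ((Ring.choose M k : ℤ) : A) * D ^ k * c)
    (by simp) _ hlt1,
    Polynomial.sum_over_range' H (f := fun k c => ((Ring.choose N k : ℤ) : A) * D ^ k * c)
    (by simp) _ hlt2]
  refine Finset.sum_congr rfl fun k _ => ?_
  by_cases hk : k < p
  · rw [tr_choose_cast h hk, hGH k hk]
  · have : D ^ k = 0 := by
      rw [show k = p + (k - p) by omega, pow_add, hD, zero_mul]
    rw [this]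
    simp

theorem tr_sum {p : ℕ} [Fact p.Prime] {A : Type} [CommRing A] [CharP A p] (q : List A)
    (hq : ∀ a ∈ q, a ^ p = 0) : q.sum ^ p = 0 := by
  have h1 : q.sum ^ p = frobenius A p q.sum := rfl
  rw [h1, map_list_sum]
  apply List.sum_eq_zero
  intro x hx
  rw [List.mem_map] at hx
  obtain ⟨a, ha, rfl⟩ := hx
  exact hq a ha

/-- the truncated polynomial ring -/
abbrev TB (A : Type) [CommRing A] (p : ℕ) : Type :=
  Polynomial A ⧸ Ideal.span {(Polynomial.X : Polynomial A) ^ p}

theorem tr_charP {p : ℕ} [Fact p.Prime] (A : Type) [CommRing A] [CharP A p] : CharP (TB A p) p := by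
  have hp : p.Prime := Fact.out
  have : Nontrivial A := CharP.nontrivial_of_char_ne_one (R := A) (v := p) hp.ne_one
  have : Nontrivial (TB A p) := by
    refine Ideal.Quotient.nontrivial_iff.2 ?_
    rw [Ne, Ideal.span_singleton_eq_top]
    intro hu
    have h1 := hu.map (Polynomial.evalRingHom (0 : A))
    rw [map_pow, Polynomial.coe_evalRingHom, Polynomial.eval_X, zero_pow hp.ne_zero] at h1
    exact not_isUnit_zero h1
  rw [CharP.charP_iff_prime_eq_zero hp]
  have h1 : ((p : ℕ) : Polynomial A) = 0 := CharP.cast_eq_zero _ _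
  have h2 : (Ideal.Quotient.mk (Ideal.span {(Polynomial.X : Polynomial A) ^ p})) ((p : ℕ) : Polynomial A)
      = 0 := by rw [h1, map_zero]
  rw [map_natCast] at h2
  exact h2

theorem tr_coeff {p : ℕ} [Fact p.Prime] (pr : List Ins)
    (ih : ∀ (A : Type) [CommRing A] [CharP A p] (q : List A), (∀ a ∈ q, a ^ p = 0) →
      V 0 (pr.map (tau p)) A q = V (-1) pr A q)
    (A : Type) [CommRing A] [CharP A p] (q : List A) (hq : ∀ a ∈ q, a ^ p = 0) :
    ∀ k < p, (V 0 (pr.map (tau p)) (Polynomial A) (ext q)).coeff k =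
      (V (-1) pr (Polynomial A) (ext q)).coeff k := by
  have hp : p.Prime := Fact.out
  set I : Ideal (Polynomial A) := Ideal.span {(Polynomial.X : Polynomial A) ^ p} with hI
  have hX : (Ideal.Quotient.mk I) (Polynomial.X : Polynomial A) ^ p = 0 := by
    rw [← map_pow, Ideal.Quotient.eq_zero_iff_mem]
    exact Ideal.mem_span_singleton_self _
  have : CharP (TB A p) p := tr_charP A
  have h1 := ih (TB A p) ((ext q).map (Ideal.Quotient.mk I)) (by
    intro a ha
    rw [List.mem_map] at ha
    obtain ⟨b, hb, rfl⟩ := ha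
    rw [ext, List.mem_append, List.mem_map, List.mem_singleton] at hb
    rcases hb with ⟨c, hc, rfl⟩ | rfl
    · rw [← map_pow, ← map_pow, hq c hc, map_zero, map_zero]
    · exact hX)
  rw [← V_map, ← V_map, Ideal.Quotient.eq, Ideal.mem_span_singleton, Polynomial.X_pow_dvd_iff] at h1
  intro k hk
  have h2 := h1 k hk
  rw [Polynomial.coeff_sub, sub_eq_zero] at h2
  exact h2

/-- **Transfer modulo `p`.** -/
theorem stub_transfer : StubTransfer := by
  intro p hp0 pr
  have hp : p.Prime := hp0.out
  induction pr with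
  | nil => intro A _ _ q _; rfl
  | cons i pr ih =>
    intro A _ _ q hq
    obtain ⟨k, a, b⟩ := i
    match k with
    | 0 =>
      have e : (((0, a, b) :: pr : List Ins).map (tau p)) = (0, a, b) :: pr.map (tau p) := by
        simp [tau]
      rw [e, V_deq, V_deq]
      exact ih A q.tail fun x hx => hq x (List.mem_of_mem_tail hx)
    | 1 =>
      have e : (((1, a, b) :: pr : List Ins).map (tau p)) = (1, a, b) :: pr.map (tau p) := by
        simp [tau]
      rw [e, V_real, V_real]
      exact tr_coeff pr (fun A => ih A) A q hq 1 hp.one_lt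
    | 2 =>
      have e : (((2, a, b) :: pr : List Ins).map (tau p)) = (2, a, b) :: pr.map (tau p) := by
        simp [tau]
      rw [e, V_read, V_read, ih A q hq]
    | k + 3 =>
      have e : (((k + 3, a, b) :: pr : List Ins).map (tau p)) =
          (3, 0, (((b : ℤ) - (a : ℤ)) % (p : ℤ)).toNat) :: pr.map (tau p) := by
        simp [tau]
      rw [e, V_por' 0 0, V_por']
      refine tr_pf ?_ _ (tr_sum q hq) _ _ (tr_coeff pr (fun A => ih A) A q hq)
      have hp0 : (0 : ℤ) < p := by exact_mod_cast hp.pos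
      rw [Int.toNat_of_nonneg (Int.emod_nonneg _ hp0.ne')]
      have h1 : ((b : ℤ) - (a : ℤ)) % (p : ℤ) = ((b : ℤ) - a) - p * (((b : ℤ) - a) / p) := by
        have := Int.emod_add_mul_ediv ((b : ℤ) - a) p
        linarith
      rw [h1]
      refine ⟨-(((b : ℤ) - a) / p), ?_⟩
      push_cast
      ring

end Pool.Agent.H573R2.Modp
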